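import Pool.Agent.T9h34.QE.Spec2

set_option autoImplicit false

/-!
# The average case at the threshold, uniformly in k
-/

namespace Pool.Agent.T9h80.QE

open Finset Filter Topology
open Pool.Agent.PC34 (prob withClique labelGraph)
open Pool.Agent.T9h34 (graphInput)
open Pool.Agent.HC34 (srcs IsLevel DepthLE)
open Pool.Agent.T9h34.Q
open Pool.Agent.T9h16.QL (meanCl ratio2 StBias)
open Pool.Agent.T9h34.QE

theorem stAvgE (hF : StFinalE) (hN : StBias) (hM : StThrE) : StAvgE := by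
  intro δ hδ hδ1
  obtain ⟨n₁, hn₁⟩ := hF δ hδ (by linarith)
  obtain ⟨n₂, hn₂⟩ := hM
  -- `n ^ (-δ / 2) + n ^ (-1)` tends to zero
  have hlim : Tendsto (fun n : ℕ => (n : ℝ) ^ (-(δ / 2)) + (n : ℝ) ^ (-(1 : ℝ))) atTop (𝓝 0) := by
    have h1 := (tendsto_rpow_neg_atTop (show (0 : ℝ) < δ / 2 by linarith)).comp
      tendsto_natCast_atTop_atTop
    have h2 := (tendsto_rpow_neg_atTop (show (0 : ℝ) < 1 by norm_num)).comp
      tendsto_natCast_atTop_atTop
    have h3 := h1.add h2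
    rw [add_zero] at h3
    exact h3
  obtain ⟨n₃, hn₃⟩ :=
    (hlim.eventually (gt_mem_nhds (show (0 : ℝ) < 1 / 100 by norm_num))).exists_forall_of_atTop
  -- `log n ≤ n ^ (δ / 200)`
  have hlog : ∀ᶠ n : ℕ in atTop, Real.log n ≤ (n : ℝ) ^ (δ / 200) := by
    have h1 := (isLittleO_log_rpow_atTop (show (0 : ℝ) < δ / 200 by positivity)).bound
      (show (0 : ℝ) < 1 by norm_num)
    have h2 := tendsto_natCast_atTop_atTop (R := ℝ) |>.eventually h1
    filter_upwards [h2] with n hn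
    rw [one_mul, Real.norm_eq_abs, Real.norm_eq_abs,
      abs_of_nonneg (Real.rpow_nonneg (Nat.cast_nonneg n) _)] at hn
    exact (le_abs_self _).trans hn
  obtain ⟨n₄, hn₄⟩ := hlog.exists_forall_of_atTop
  refine ⟨max (max n₁ n₂) (max n₃ (max n₄ 2)), ?_⟩
  intro n k D a L hn hk hkn hD ha haL hM1 hM2 d C hC hdep hsize hT
  have g1 : n₁ ≤ n := le_trans (le_trans (le_max_left _ _) (le_max_left _ _)) hn
  have g2 : n₂ ≤ n := le_trans (le_trans (le_max_right _ _) (le_max_left _ _)) hn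
  have g3 : n₃ ≤ n := le_trans (le_trans (le_max_left _ _) (le_max_right _ _)) hn
  have g4 : n₄ ≤ n := le_trans (le_trans (le_trans (le_max_left _ _) (le_max_right _ _))
    (le_max_right _ _)) hn
  have g5 : 2 ≤ n := le_trans (le_trans (le_trans (le_max_right _ _) (le_max_right _ _))
    (le_max_right _ _)) hn
  have hn1 : (1 : ℝ) < n := by exact_mod_cast g5
  have hn0 : (0 : ℝ) < n := by linarith
  have hlogn : 0 < Real.log n := Real.log_pos hn1
  -- the size of `k`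
  have hk1 : (1 : ℝ) < k := by
    have h1 : (0 : ℝ) < δ ^ 2 * ((k : ℝ) - 1) := lt_of_lt_of_le (by norm_num) hk
    have h2 : (0 : ℝ) < (k : ℝ) - 1 := by
      by_contra hc
      push Not at hc
      have : δ ^ 2 * ((k : ℝ) - 1) ≤ 0 := mul_nonpos_of_nonneg_of_nonpos (by positivity) hc
      linarith
    linarith
  have hk0 : (0 : ℝ) < (k : ℝ) - 1 := by linarith
  have hδ2 : δ ^ 2 ≤ δ := by nlinarith
  have hδk : (60000 : ℝ) ≤ δ * ((k : ℝ) - 1) :=
    hk.trans (mul_le_mul_of_nonneg_right hδ2 hk0.le)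
  have hk2 : (60001 : ℝ) ≤ k := by nlinarith
  have hkN : 60001 ≤ k := by exact_mod_cast hk2
  have hkn1 : (k : ℝ) ≤ n := by
    refine hkn.trans ?_
    calc (n : ℝ) ^ (δ / 200) ≤ (n : ℝ) ^ (1 : ℝ) :=
          Real.rpow_le_rpow_of_exponent_le hn1.le (by linarith)
      _ = n := Real.rpow_one _
  have hkn2 : k ≤ n := by exact_mod_cast hkn1
  have hk10 : k ^ 10 ≤ n := by
    have h1 : (k : ℝ) ^ 10 ≤ n := by
      calc (k : ℝ) ^ 10 ≤ ((n : ℝ) ^ (δ / 200)) ^ 10 :=
            pow_le_pow_left₀ (Nat.cast_nonneg k) hkn 10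
        _ = (n : ℝ) ^ (δ / 200 * (10 : ℕ)) := (Real.rpow_mul_natCast hn0.le _ _).symm
        _ ≤ (n : ℝ) ^ (1 : ℝ) :=
            Real.rpow_le_rpow_of_exponent_le hn1.le (by push_cast; linarith)
        _ = n := Real.rpow_one _
    exact_mod_cast h1
  obtain ⟨h2a, h2b⟩ := hn₂ n k a L g2 (by omega) hk10 ha haL hM1 hM2
  have ha0 : (0 : ℝ) < a := by exact_mod_cast ha
  have hL0 : (0 : ℝ) < L := by exact_mod_cast (lt_of_lt_of_le ha haL)
  have hLa : (0 : ℝ) < L / a := div_pos hL0 ha0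
  -- the size bound
  set r : ℝ := δ ^ 2 * ((k : ℝ) - 1) / 60000 with hr
  have hr1 : 1 ≤ r := by rw [hr, le_div_iff₀ (by norm_num)]; linarith
  have hrk : 2 * r ≤ k := by
    have h1 : δ ^ 2 * ((k : ℝ) - 1) ≤ 1 * ((k : ℝ) - 1) :=
      mul_le_mul_of_nonneg_right (by nlinarith) hk0.le
    have h2 : r ≤ ((k : ℝ) - 1) / 60000 := by
      rw [hr]
      exact div_le_div_of_nonneg_right (by linarith) (by norm_num)
    linarith
  set s : ℕ := ⌊(n : ℝ) ^ r⌋₊ with hs
  have hns : n ≤ s := by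
    rw [hs]
    apply Nat.le_floor
    calc (n : ℝ) = (n : ℝ) ^ (1 : ℝ) := (Real.rpow_one _).symm
      _ ≤ (n : ℝ) ^ r := Real.rpow_le_rpow_of_exponent_le hn1.le hr1
  have hs0 : (0 : ℝ) < s := by
    have : 0 < s := by omega
    exact_mod_cast this
  have hlogs : Real.log s ≤ r * Real.log n := by
    rw [← Real.log_rpow hn0]
    apply Real.log_le_log hs0
    exact Nat.floor_le (by positivity)
  have hlogs0 : 0 ≤ Real.log s := Real.log_nonneg (by
    have : (1 : ℕ) ≤ s := by omega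
    exact_mod_cast this)
  have hcond : ((2 : ℕ) : ℝ) * Real.log s * Real.log (L / a) ≤ δ ^ 2 / 10000 * Real.log n ^ 2 := by
    calc ((2 : ℕ) : ℝ) * Real.log s * Real.log (L / a)
        ≤ ((2 : ℕ) : ℝ) * Real.log s * (3 / (k - 1) * Real.log n) :=
          mul_le_mul_of_nonneg_left h2b (by positivity)
      _ ≤ ((2 : ℕ) : ℝ) * (r * Real.log n) * (3 / (k - 1) * Real.log n) := by
          refine mul_le_mul_of_nonneg_right ?_ (by positivity)
          exact mul_le_mul_of_nonneg_left hlogs (by positivity)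
      _ = δ ^ 2 / 10000 * Real.log n ^ 2 := by
          rw [hr]
          push_cast
          field_simp
          ring
  have hcond2 : ((2 : ℕ) : ℝ) * Real.log s ≤ (n : ℝ) ^ (δ / 100) := by
    have h1 : ((2 : ℕ) : ℝ) * Real.log s ≤ k * Real.log n := by
      calc ((2 : ℕ) : ℝ) * Real.log s ≤ ((2 : ℕ) : ℝ) * (r * Real.log n) :=
            mul_le_mul_of_nonneg_left hlogs (by positivity)
        _ = (2 * r) * Real.log n := by push_cast; ring
        _ ≤ k * Real.log n := mul_le_mul_of_nonneg_right hrk hlogn.le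
    calc ((2 : ℕ) : ℝ) * Real.log s ≤ k * Real.log n := h1
      _ ≤ (n : ℝ) ^ (δ / 200) * (n : ℝ) ^ (δ / 200) :=
          mul_le_mul hkn (hn₄ n g4) hlogn.le (by positivity)
      _ = (n : ℝ) ^ (δ / 100) := by
          rw [← Real.rpow_add hn0]
          congr 1
          ring
  have hsz : C.size + C.numTests ≤ s := by
    rw [hs]
    exact Nat.le_floor hsize
  have key := hn₁ n k 2 s D a L g1 (by omega) hD hns le_rfl ha haL hcond hcond2 d C hC hsz hdep
  set ε : ℝ := 2 ^ C.numTests * (Real.sqrt (L / a - 1) * (((k : ℝ) * D) ^ 2 * (n : ℝ) ^ (δ - 1)) +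
      (n : ℝ) ^ (-2 : ℝ)) with hε
  have hsqrt : Real.sqrt (L / a - 1) ≤ (n : ℝ) ^ (δ / 2) := by
    calc Real.sqrt ((L : ℝ) / a - 1) ≤ Real.sqrt ((L : ℝ) / a) :=
          Real.sqrt_le_sqrt (by linarith)
      _ = Real.exp (Real.log ((L : ℝ) / a) / 2) := by
          rw [Real.exp_half, Real.exp_log hLa]
      _ ≤ Real.exp (Real.log n * (δ / 2)) := by
          apply Real.exp_le_exp.2
          have h3 : 3 / ((k : ℝ) - 1) ≤ δ := by
            rw [div_le_iff₀ hk0]
            linarith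
          have h4 : Real.log ((L : ℝ) / a) ≤ δ * Real.log n :=
            h2b.trans (mul_le_mul_of_nonneg_right h3 hlogn.le)
          linarith
      _ = (n : ℝ) ^ (δ / 2) := (Real.rpow_def_of_pos hn0 _).symm
  have hkD : (1 : ℝ) ≤ ((k : ℝ) * D) ^ 2 := by
    have hD1 : (1 : ℝ) ≤ D := by exact_mod_cast hD
    exact one_le_pow₀ (one_le_mul_of_one_le_of_one_le hk1.le hD1)
  have hT1 : (2 : ℝ) ^ C.numTests ≤ (n : ℝ) ^ (1 - 2 * δ) := by
    refine le_trans ?_ hT
    exact le_mul_of_one_le_right (by positivity) hkD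
  have hε1 : ε ≤ 1 / 100 := by
    have e1 : 2 ^ C.numTests * (Real.sqrt (L / a - 1) * (((k : ℝ) * D) ^ 2 * (n : ℝ) ^ (δ - 1))) ≤
        (n : ℝ) ^ (-(δ / 2)) := by
      calc 2 ^ C.numTests * (Real.sqrt (L / a - 1) * (((k : ℝ) * D) ^ 2 * (n : ℝ) ^ (δ - 1)))
          = Real.sqrt (L / a - 1) * ((2 ^ C.numTests * ((k : ℝ) * D) ^ 2) * (n : ℝ) ^ (δ - 1)) := by
            ring
        _ ≤ (n : ℝ) ^ (δ / 2) * ((n : ℝ) ^ (1 - 2 * δ) * (n : ℝ) ^ (δ - 1)) := by
            refine mul_le_mul hsqrt ?_ (by positivity) (by positivity)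
            exact mul_le_mul_of_nonneg_right hT (by positivity)
        _ = (n : ℝ) ^ (-(δ / 2)) := by
            rw [← Real.rpow_add hn0, ← Real.rpow_add hn0]
            congr 1
            ring
    have e2 : (2 : ℝ) ^ C.numTests * (n : ℝ) ^ (-2 : ℝ) ≤ (n : ℝ) ^ (-(1 : ℝ)) := by
      calc (2 : ℝ) ^ C.numTests * (n : ℝ) ^ (-2 : ℝ)
          ≤ (n : ℝ) ^ (1 - 2 * δ) * (n : ℝ) ^ (-2 : ℝ) :=
            mul_le_mul_of_nonneg_right hT1 (by positivity)
        _ = (n : ℝ) ^ (1 - 2 * δ + -2) := (Real.rpow_add hn0 _ _).symm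
        _ ≤ (n : ℝ) ^ (-(1 : ℝ)) :=
            Real.rpow_le_rpow_of_exponent_le hn1.le (by linarith)
    have e3 : ε ≤ (n : ℝ) ^ (-(δ / 2)) + (n : ℝ) ^ (-(1 : ℝ)) := by
      rw [hε, mul_add]
      exact add_le_add e1 e2
    exact e3.trans (hn₃ n g3).le
  by_contra hcon
  rw [not_le] at hcon
  have hb := hN n k a L (fun G => C.eval (graphInput G) = true) ε _ (by omega) hkn2 ha haL key
    le_rfl
  set η : ℝ := prob (fun lab : Sym2 (Fin n) → Fin L =>
    ¬ (C.eval (graphInput (labelGraph lab a)) = true ↔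
      ∃ S : Finset (Fin n), (labelGraph lab a).IsNClique k S)) with hη
  have hη0 : 0 ≤ η := by
    classical
    rw [hη]
    unfold Pool.Agent.PC34.prob
    positivity
  have hsq : Real.sqrt (η * ratio2 n k ((a : ℝ) / L)) ≤ 0.35 := by
    rw [Real.sqrt_le_left (by norm_num)]
    calc η * ratio2 n k ((a : ℝ) / L) ≤ η * 6 := mul_le_mul_of_nonneg_left h2a hη0
      _ ≤ 1 / 50 * 6 := mul_le_mul_of_nonneg_right hcon.le (by norm_num)
      _ ≤ 0.35 ^ 2 := by norm_num
  have h9 : 1 - meanCl n k ((a : ℝ) / L) - ε - η ≤ 0.35 := hb.trans hsq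
  norm_num at h9
  linarith

end Pool.Agent.T9h80.QE
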